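import Pool.Agent.J6H80.BG.Stm3
import Pool.Agent.J6H70.BG.GM

/-!
# GMU: lower bound of second order for the two-body functional, uniformly in the potential
-/

set_option autoImplicit false

open MeasureTheory UnitAddTorus
open scoped ENNReal ContDiff

namespace Pool.Agent.H751R2.LHY.G80.GMU3

open Pool.Agent.J6H80.BG Pool.Agent.H751R2.LHY.G80.GM70

noncomputable section

/-- uniformly small tails -/
lemma tail_small {V : (Fin 3 → ℝ) → ℝ≥0∞} {R₀ : ℝ}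
    (hf : ∫⁻ x in {x | R₀ < ‖x‖}, V x ≠ ⊤) {ε : ℝ} (hε : 0 < ε) :
    ∃ r : ℝ, 0 ≤ r ∧ ∀ w, Cls V w → ∫ x in {x | r < ‖x‖}, w x ≤ ε := by
  have hm : ∀ t : ℝ, MeasurableSet {x : Fin 3 → ℝ | t < ‖x‖} := fun t =>
    measurableSet_lt measurable_const measurable_norm
  obtain ⟨ν, hν⟩ : ∃ ν, ν = (volume : Measure (Fin 3 → ℝ)).withDensity V := ⟨_, rfl⟩
  have hνa : ∀ t : ℝ, ν {x | t < ‖x‖} = ∫⁻ x in {x | t < ‖x‖}, V x := fun t => by
    rw [hν]; exact withDensity_apply _ (hm t)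
  have hlim : Filter.Tendsto (fun k : ℕ => ν {x | R₀ + k < ‖x‖}) Filter.atTop (nhds 0) := by
    have h1 : (⋂ k : ℕ, {x : Fin 3 → ℝ | R₀ + k < ‖x‖}) = ∅ := by
      ext x
      simp only [Set.mem_iInter, Set.mem_ofPred_eq, Set.mem_empty_iff_false, iff_false, not_forall,
        not_lt]
      obtain ⟨k, hk⟩ := exists_nat_ge (‖x‖ - R₀)
      exact ⟨k, by linarith⟩
    have h2 := tendsto_measure_iInter_atTop (μ := ν)
      (s := fun k : ℕ => {x : Fin 3 → ℝ | R₀ + k < ‖x‖})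
      (fun k => (hm _).nullMeasurableSet) (by
        intro i j hij x hx
        simp only [Set.mem_ofPred_eq] at hx ⊢
        have : (i : ℝ) ≤ j := by exact_mod_cast hij
        linarith) ⟨0, by rw [hνa]; simpa using hf⟩
    rwa [h1, measure_empty] at h2
  have hev := hlim.eventually (gt_mem_nhds (show (0 : ℝ≥0∞) < ENNReal.ofReal ε by simpa using hε))
  obtain ⟨k, hk1, hk2⟩ := (hev.and (Filter.eventually_ge_atTop (Nat.ceil |R₀|))).exists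
  have hr0 : 0 ≤ R₀ + k := by
    have h1 : |R₀| ≤ k := (Nat.le_ceil _).trans (by exact_mod_cast hk2)
    have := neg_abs_le R₀
    linarith
  refine ⟨R₀ + k, hr0, fun w hw => ?_⟩
  rw [integral_eq_lintegral_of_nonneg_ae (Filter.Eventually.of_forall hw.nonneg)
    hw.meas.aestronglyMeasurable]
  calc (∫⁻ x in {x | R₀ + k < ‖x‖}, ENNReal.ofReal (w x)).toReal
      ≤ (ENNReal.ofReal ε).toReal := by
        refine ENNReal.toReal_mono ENNReal.ofReal_ne_top (le_trans ?_ hk1.le)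
        rw [hνa]
        exact lintegral_mono fun x => hw.le x
    _ = ε := ENNReal.toReal_ofReal hε.le

/-- lower bound for the number of pairs in the minimiser -/
lemma omega_lowU (hLAT : S_LAT) (hNB : S_NB) {m : ℝ} (hm : 0 < m) {V : (Fin 3 → ℝ) → ℝ≥0∞}
    {R₀ : ℝ} (hf : ∫⁻ x in {x | R₀ < ‖x‖}, V x ≠ ⊤)
    {G₀ : ℝ} (hG₀ : 0 < G₀) {ζ : ℝ} (hζ0 : 0 < ζ) (hζ1 : ζ < 1) :
    ∃ δ η0 : ℝ, 0 < δ ∧ 0 < η0 ∧ ∀ v, Cls V v → ∀ G : ℝ, G₀ / 2 ≤ G →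
      ∀ μ : ℝ, 0 < μ → μ ≤ δ → ∃ L : ℝ, 0 < L ∧ ∀ ℓ : ℝ, L ≤ ℓ →
      ∀ K : ℝ, 0 ≤ K → ∀ᶠ R : ℕ in Filter.atTop, ∀ c : Mom → ℝ,
        Scat (fun y => min (Wr v ℓ y) K) (1 / (2 * m) * (2 * Real.pi / ℓ) ^ 2) μ
          ((boxM R).erase 0) c →
        (G - η0) / ℓ ^ 3 ≤ gh (fun y => min (Wr v ℓ y) K) ((boxM R).erase 0) c 0 →
        gh (fun y => min (Wr v ℓ y) K) ((boxM R).erase 0) c 0 ≤ 2 * G₀ / ℓ ^ 3 →
        (1 - ζ) ^ 3 * (G ^ 2 * Real.pi ^ 2 / (4 * P0 (1 / (2 * m)))) / √μ ≤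
          ℓ ^ 3 * ∑ n ∈ (boxM R).erase 0, c n ^ 2 := by
  obtain ⟨b, hb⟩ : ∃ b, b = 1 / (2 * m) := ⟨_, rfl⟩
  have hb0 : 0 < b := by rw [hb]; positivity
  obtain ⟨τ, hτ⟩ : ∃ τ, τ = ζ * G₀ / 4 := ⟨_, rfl⟩
  have hτ0 : 0 < τ := by rw [hτ]; positivity
  obtain ⟨s, hs⟩ : ∃ s, s = τ / (8 * G₀) := ⟨_, rfl⟩
  have hs0 : 0 < s := by rw [hs]; positivity
  have hsG : s * (2 * G₀) = τ / 4 := by rw [hs]; field_simp; ring
  obtain ⟨r, hr0, hr⟩ := tail_small hf (show 0 < s * (τ / 4) by positivity)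
  obtain ⟨P, hP⟩ : ∃ P, P = b * (τ / (6 * (r ^ 2 + 1) * (2 * G₀ + 1))) := ⟨_, rfl⟩
  have hP0 : 0 < P := by rw [hP]; positivity
  have hPi := Real.pi_pos
  have hsP := Real.sqrt_pos.2 hP0
  have hPb := P0_pos hb0
  -- choice of δ
  obtain ⟨D, hD⟩ : ∃ D, D = 8 * Real.pi ^ 2 / √P + 1 := ⟨_, rfl⟩
  have hD0 : 0 < D := by rw [hD]; positivity
  refine ⟨(ζ * Real.pi ^ 2 / D) ^ 2, ζ * G₀ / 4, by positivity, by positivity,
    fun v hv G hG' μ hμ hμδ => ?_⟩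
  have hG : 0 < G := by linarith
  have hsμ := Real.sqrt_pos.2 hμ
  have hμD : D ≤ ζ * (Real.pi ^ 2 / √μ) := by
    have h1 : √μ ≤ ζ * Real.pi ^ 2 / D := by
      calc √μ ≤ √((ζ * Real.pi ^ 2 / D) ^ 2) := Real.sqrt_le_sqrt hμδ
        _ = _ := Real.sqrt_sq (by positivity)
    rw [le_div_iff₀ hD0] at h1
    rw [← mul_div_assoc, le_div_iff₀ hsμ]
    linarith
  obtain ⟨q1, hq1, hlat1⟩ := hLAT μ hμ (1 / 4) (by positivity)
  obtain ⟨q2, hq2, hlat2⟩ := hLAT P hP0 (Real.pi ^ 2 / √P) (by positivity)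
  obtain ⟨L1, hL1, hL1'⟩ := q_small hb0 hq1
  obtain ⟨L2, hL2, hL2'⟩ := q_small hb0 hq2
  refine ⟨L1 + L2 + 1 + 4 * P0 b / μ ^ 2, by positivity, fun ℓ hℓ K hK => ?_⟩
  have h4P : 0 < 4 * P0 b / μ ^ 2 := by positivity
  have hℓ1 : 1 ≤ ℓ := by linarith
  have hℓ0 : 0 < ℓ := by linarith
  have hℓ3 : 0 < ℓ ^ 3 := by positivity
  rw [← hb]
  obtain ⟨q, hq⟩ : ∃ q, q = b * (2 * Real.pi / ℓ) ^ 2 := ⟨_, rfl⟩
  have hq0 : 0 < q := by rw [hq]; positivity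
  rw [← hq]
  have hκ : ∀ n, 0 ≤ q * sq n := fun n => mul_nonneg hq0.le (sq_nonneg' n)
  obtain ⟨hs1, hb1⟩ := hlat1 q hq0 (by rw [hq]; exact hL1' ℓ (by linarith))
  obtain ⟨hs2, hb2⟩ := hlat2 q hq0 (by rw [hq]; exact hL2' ℓ (by linarith))
  have hqs := q_sqrt hb0 hℓ0 hq
  -- the lattice sum
  set f : Mom → ℝ := fun n => 1 / (q * sq n + μ) ^ 2 with hf
  have hf0 : ∀ n, 0 ≤ f n := fun n => by rw [hf]; positivity
  set SS := ∑' n : Fin 3 → ℤ, f n with hSS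
  have hSSlow : ℓ ^ 3 / P0 b * (Real.pi ^ 2 / √μ - 1 / 4) ≤ SS := by
    have h3 := (abs_le.1 hb1).1
    rw [hqs] at h3
    have h4 : Real.pi ^ 2 / √μ - 1 / 4 ≤ P0 b / ℓ ^ 3 * SS := by
      rw [hSS, hf]; linarith
    have h5 : SS = ℓ ^ 3 / P0 b * (P0 b / ℓ ^ 3 * SS) := by field_simp
    rw [h5]
    exact mul_le_mul_of_nonneg_left h4 (by positivity)
  have hlim : Filter.Tendsto (fun R : ℕ => ∑ n ∈ boxM R, f n) Filter.atTop (nhds SS) :=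
    hs1.hasSum.comp boxM_tendsto
  have hev := hlim.eventually (lt_mem_nhds (show SS - ℓ ^ 3 / P0 b * (1 / 4) < SS by
    have : 0 < ℓ ^ 3 / P0 b * (1 / 4) := by positivity
    linarith))
  have hf00 : f 0 ≤ ℓ ^ 3 / P0 b * (1 / 4) := by
    have h1 : f 0 = 1 / μ ^ 2 := by rw [hf]; simp [sq]
    have h2 : 4 * P0 b / μ ^ 2 ≤ ℓ ^ 3 := by
      have h3 : ℓ ≤ ℓ ^ 3 := by
        calc ℓ = ℓ ^ 1 := (pow_one ℓ).symm
          _ ≤ ℓ ^ 3 := pow_le_pow_right₀ hℓ1 (by norm_num)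
      linarith
    rw [h1]
    calc 1 / μ ^ 2 = (4 * P0 b / μ ^ 2) / P0 b * (1 / 4) := by field_simp
      _ ≤ _ := by gcongr
  have hlarge : ∀ F : Finset Mom, (∀ n ∈ F, P < q * sq n) →
      ∑ n ∈ F, f n ≤ ℓ ^ 3 / P0 b * (8 * Real.pi ^ 2 / √P) := by
    intro F hF
    calc ∑ n ∈ F, f n ≤ ∑ n ∈ F, 4 * (1 / (q * sq n + P) ^ 2) := by
          refine Finset.sum_le_sum fun n hn => ?_
          have h1 := hF n hn
          have h2 := hκ n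
          rw [hf]
          simp only
          rw [mul_one_div, div_le_div_iff₀ (by positivity) (by positivity)]
          have h3 : q * sq n + P ≤ 2 * (q * sq n + μ) := by linarith
          have h4 : (q * sq n + P) ^ 2 ≤ (2 * (q * sq n + μ)) ^ 2 :=
            pow_le_pow_left₀ (by positivity) h3 2
          linarith
      _ = 4 * ∑ n ∈ F, 1 / (q * sq n + P) ^ 2 := by rw [Finset.mul_sum]
      _ ≤ 4 * (2 * Real.pi ^ 2 * ℓ ^ 3 / (P0 b * √P)) :=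
          mul_le_mul_of_nonneg_left (lat_fin hb0 hℓ0 hP0 hq hs2 hb2 F) (by norm_num)
      _ = ℓ ^ 3 / P0 b * (8 * Real.pi ^ 2 / √P) := by field_simp; ring
  have hWp : Pot (fun y => min (Wr v ℓ y) K) := pot_min (Wr_pot hv.meas hv.int hv.even hℓ0) hK
  filter_upwards [hev, pos_lim hWp hK (fun y => min_le_right _ _) hq0 hμ
    (show 0 < 1 / ℓ ^ 3 by positivity)] with R hR hpos c hc hg0 hg2
  set B0 := (boxM R).erase 0 with hB0
  set WK : T3 → ℝ := fun y => min (Wr v ℓ y) K with hWK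
  have hWKp : Pot WK := hWp
  -- the partial sum
  have h0mem : (0 : Mom) ∈ boxM R := by simp [boxM]
  have hsum1 : ∑ n ∈ boxM R, f n = f 0 + ∑ n ∈ B0, f n := (Finset.add_sum_erase _ f h0mem).symm
  have hsum2 : ∑ n ∈ B0, f n = ∑ n ∈ B0.filter (fun n => q * sq n ≤ P), f n +
      ∑ n ∈ B0.filter (fun n => ¬ q * sq n ≤ P), f n :=
    (Finset.sum_filter_add_sum_filter_not _ _ _).symm
  have hsum3 := hlarge (B0.filter (fun n => ¬ q * sq n ≤ P)) (fun n hn =>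
    not_le.1 (Finset.mem_filter.1 hn).2)
  have hSP : ℓ ^ 3 / P0 b * ((1 - ζ) * (Real.pi ^ 2 / √μ)) ≤
      ∑ n ∈ B0.filter (fun n => q * sq n ≤ P), f n := by
    have h1 : ℓ ^ 3 / P0 b * D ≤ ℓ ^ 3 / P0 b * (ζ * (Real.pi ^ 2 / √μ)) :=
      mul_le_mul_of_nonneg_left hμD (by positivity)
    have h2 : ℓ ^ 3 / P0 b * D = ℓ ^ 3 / P0 b * (8 * Real.pi ^ 2 / √P) + ℓ ^ 3 / P0 b := by
      rw [hD]; ring
    have h3 : ℓ ^ 3 / P0 b * (Real.pi ^ 2 / √μ - 1 / 4) =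
      ℓ ^ 3 / P0 b * (Real.pi ^ 2 / √μ) - ℓ ^ 3 / P0 b * (1 / 4) := by ring
    have h4 : ℓ ^ 3 / P0 b * ((1 - ζ) * (Real.pi ^ 2 / √μ)) =
      ℓ ^ 3 / P0 b * (Real.pi ^ 2 / √μ) - ℓ ^ 3 / P0 b * (ζ * (Real.pi ^ 2 / √μ)) := by ring
    have h5 : 0 < ℓ ^ 3 / P0 b := by positivity
    linarith
  -- the coefficients
  have hc' : ScatW WK (fun n => q * sq n + μ) B0 c :=
    ⟨hc.even, fun n hn => by rw [hc.eq n hn]; ring⟩
  have hwpos : ∀ n ∈ B0, 0 < (fun n => q * sq n + μ) n := fun n _ => by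
    have := hκ n
    simp only
    linarith
  have hgn : ∀ n ∈ B0.filter (fun n => q * sq n ≤ P), (1 - ζ) * G / ℓ ^ 3 ≤ gh WK B0 c n := by
    intro n hn
    have hnP := (Finset.mem_filter.1 hn).2
    have h1 := hNB v hv.meas hv.int hv.nonneg hv.even r ℓ K q μ s hr0 hℓ0 hK hq0 hμ hs0 B0
      (boxM_sym R) c hc n
    have h2 := hpos c hc
    have h3 := hr v hv
    have h4 : ∫ y, WK y * |1 - wf B0 c y| ≤ (2 * G₀ + 1) / ℓ ^ 3 := by
      rw [add_div]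
      linarith
    have hI0 : 0 ≤ ∫ y, WK y * |1 - wf B0 c y| :=
      integral_nonneg fun y => mul_nonneg (hWKp.nonneg y) (abs_nonneg _)
    have h5 : (2 * Real.pi / ℓ) ^ 2 * sq n ≤ τ / (6 * (r ^ 2 + 1) * (2 * G₀ + 1)) := by
      rw [hq, hP, mul_assoc] at hnP
      exact le_of_mul_le_mul_left hnP hb0
    have h6 : 3 / 2 * ((2 * Real.pi / ℓ) ^ 2 * sq n) * r ^ 2 * (∫ y, WK y * |1 - wf B0 c y|) ≤
        τ / 4 / ℓ ^ 3 := by
      calc 3 / 2 * ((2 * Real.pi / ℓ) ^ 2 * sq n) * r ^ 2 * (∫ y, WK y * |1 - wf B0 c y|)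
          ≤ 3 / 2 * (τ / (6 * (r ^ 2 + 1) * (2 * G₀ + 1))) * (r ^ 2 + 1) *
              ((2 * G₀ + 1) / ℓ ^ 3) := by
            gcongr
            linarith
        _ = τ / 4 / ℓ ^ 3 := by
            field_simp
            ring
    have h7 : 1 / s * ((∫ x in {x | r < ‖x‖}, v x) / ℓ ^ 3) ≤ τ / 4 / ℓ ^ 3 := by
      calc 1 / s * ((∫ x in {x | r < ‖x‖}, v x) / ℓ ^ 3) ≤ 1 / s * (s * (τ / 4) / ℓ ^ 3) := by
            gcongr
        _ = _ := by field_simp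
    have h8 : s * gh WK B0 c 0 ≤ τ / 4 / ℓ ^ 3 := by
      calc s * gh WK B0 c 0 ≤ s * (2 * G₀ / ℓ ^ 3) := by gcongr
        _ = s * (2 * G₀) / ℓ ^ 3 := by ring
        _ = _ := by rw [hsG]
    have h9 := (abs_le.1 h1).2
    have h10 : (1 - ζ) * G / ℓ ^ 3 ≤ (G - ζ * G₀ / 4) / ℓ ^ 3 - 3 * (τ / 4 / ℓ ^ 3) := by
      have e : (G - ζ * G₀ / 4) / ℓ ^ 3 - 3 * (τ / 4 / ℓ ^ 3) =
        (G - ζ * G₀ / 4 - 3 * (τ / 4)) / ℓ ^ 3 := by ring
      rw [e]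
      apply div_le_div_of_nonneg_right _ hℓ3.le
      rw [hτ]
      nlinarith [mul_nonneg hζ0.le (sub_nonneg.2 hG')]
    linarith
  -- the final estimate
  have hcn : ∀ n ∈ B0.filter (fun n => q * sq n ≤ P),
      ((1 - ζ) * G / ℓ ^ 3) ^ 2 / 4 * f n ≤ c n ^ 2 := by
    intro n hn
    have h1 := hgn n hn
    have h2 := hc'.eq n (Finset.mem_filter.1 hn).1
    have h3 : 0 < q * sq n + μ := by have := hκ n; linarith
    have h4 : c n = gh WK B0 c n / (2 * (q * sq n + μ)) := by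
      rw [h2]; field_simp
    have hz : 0 ≤ (1 - ζ) * G / ℓ ^ 3 := by
      have : 0 < 1 - ζ := by linarith
      positivity
    rw [h4, div_pow _ (2 * (q * sq n + μ)), hf]
    simp only
    calc ((1 - ζ) * G / ℓ ^ 3) ^ 2 / 4 * (1 / (q * sq n + μ) ^ 2)
        = ((1 - ζ) * G / ℓ ^ 3) ^ 2 / (2 * (q * sq n + μ)) ^ 2 := by
          rw [mul_pow 2 (q * sq n + μ)]
          rw [div_mul_div_comm, mul_one]
          norm_num
      _ ≤ _ := by gcongr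
  calc (1 - ζ) ^ 3 * (G ^ 2 * Real.pi ^ 2 / (4 * P0 b)) / √μ
      = ℓ ^ 3 * (((1 - ζ) * G / ℓ ^ 3) ^ 2 / 4 *
          (ℓ ^ 3 / P0 b * ((1 - ζ) * (Real.pi ^ 2 / √μ)))) := by
        field_simp
    _ ≤ ℓ ^ 3 * (((1 - ζ) * G / ℓ ^ 3) ^ 2 / 4 *
          ∑ n ∈ B0.filter (fun n => q * sq n ≤ P), f n) := by gcongr
    _ = ℓ ^ 3 * ∑ n ∈ B0.filter (fun n => q * sq n ≤ P),
          ((1 - ζ) * G / ℓ ^ 3) ^ 2 / 4 * f n := by rw [Finset.mul_sum]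
    _ ≤ ℓ ^ 3 * ∑ n ∈ B0.filter (fun n => q * sq n ≤ P), c n ^ 2 := by
        gcongr with n hn
        exact hcn n hn
    _ ≤ ℓ ^ 3 * ∑ n ∈ B0, c n ^ 2 := by
        gcongr
        exact Finset.filter_subset _ _

/-- the telescoping -/
lemma teleU (hLAT : S_LAT) (hSL : S_SL) (hNB : S_NB) {m : ℝ} (hm : 0 < m)
    {V : (Fin 3 → ℝ) → ℝ≥0∞} {R₀ : ℝ} (hf : ∫⁻ x in {x | R₀ < ‖x‖}, V x ≠ ⊤)
    {G₀ : ℝ} (hG₀ : 0 < G₀) {ζ : ℝ} (hζ0 : 0 < ζ) (hζ1 : ζ < 1) :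
    ∃ δ η0 : ℝ, 0 < δ ∧ 0 < η0 ∧ ∀ v, Cls V v → G₀ / 2 ≤ scatG m v → scatG m v ≤ G₀ →
      ∀ s : ℝ, 0 < s → s < 1 → ∀ j : ℕ,
      ∀ μ : ℝ, 0 < μ → μ ≤ δ → ∀ η : ℝ, 0 < η → η ≤ η0 →
      ∃ L : ℝ, 0 < L ∧ ∀ ℓ : ℝ, L ≤ ℓ → ∃ K1 : ℝ, ∀ K, K1 ≤ K → 0 ≤ K →
      ∀ᶠ R : ℕ in Filter.atTop, ∀ c : Mom → ℝ,
        scatG m v - η + (1 - ζ) ^ 3 * (scatG m v ^ 2 * Real.pi ^ 2 / (2 * P0 (1 / (2 * m)))) *
            ((1 + s) * (1 - s ^ j)) * √μ ≤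
          ℓ ^ 3 * Qf (fun y => min (Wr v ℓ y) K) (1 / (2 * m) * (2 * Real.pi / ℓ) ^ 2) μ
            ((boxM R).erase 0) c := by
  obtain ⟨δ, η0, hδ, hη0, hom⟩ := omega_lowU hLAT hNB hm hf hG₀ hζ0 hζ1
  have hPb := P0_pos (show 0 < 1 / (2 * m) by positivity)
  have hPi := Real.pi_pos
  obtain ⟨δ2, hδ2⟩ : ∃ δ2, δ2 = (P0 (1 / (2 * m)) / (G₀ * Real.pi ^ 2)) ^ 2 := ⟨_, rfl⟩
  have hδ20 : 0 < δ2 := by rw [hδ2]; positivity
  refine ⟨min δ δ2, η0, lt_min hδ hδ20, hη0, fun v hv hGl hGu s hs0 hs1 j => ?_⟩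
  have hG : 0 < scatG m v := by linarith
  set G := scatG m v with hGdef
  obtain ⟨A, hA⟩ : ∃ A, A = (1 - ζ) ^ 3 * (G ^ 2 * Real.pi ^ 2 / (2 * P0 (1 / (2 * m)))) := ⟨_, rfl⟩
  have hz1 : 0 < 1 - ζ := by linarith
  have hA0 : 0 < A := by rw [hA]; positivity
  have hAle : A ≤ G₀ ^ 2 * Real.pi ^ 2 / (2 * P0 (1 / (2 * m))) := by
    rw [hA]
    calc (1 - ζ) ^ 3 * (G ^ 2 * Real.pi ^ 2 / (2 * P0 (1 / (2 * m))))
        ≤ 1 * (G₀ ^ 2 * Real.pi ^ 2 / (2 * P0 (1 / (2 * m)))) := by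
          gcongr
          exact pow_le_one₀ hz1.le (by linarith)
      _ = _ := one_mul _
  rw [← hA]
  induction j with
  | zero =>
    intro μ hμ hμδ η hη hηη
    obtain ⟨L, hL, H⟩ := first hSL hm hv.meas hv.int hv.nonneg hv.even hη hμ
    refine ⟨L, hL, fun ℓ hℓ => ?_⟩
    obtain ⟨K1, hK1⟩ := H ℓ hℓ
    refine ⟨K1, fun K hK hKn => ?_⟩
    filter_upwards [hK1 K hK hKn] with R hR c
    have := hR c
    simpa using this
  | succ j ih =>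
    intro μ hμ hμδ η hη hηη
    have hs2 : 0 < s ^ 2 := by positivity
    have hs21 : s ^ 2 < 1 := by nlinarith
    have hμ' : 0 < s ^ 2 * μ := by positivity
    have hμμ : s ^ 2 * μ ≤ μ := by nlinarith
    obtain ⟨L1, hL1, H1⟩ := ih (s ^ 2 * μ) hμ' (hμμ.trans hμδ) η hη hηη
    obtain ⟨L2, hL2, H2⟩ := hom v hv G hGl μ hμ (hμδ.trans (min_le_left _ _))
    refine ⟨L1 + L2, by positivity, fun ℓ hℓ => ?_⟩
    have hℓ0 : 0 < ℓ := by linarith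
    have hℓ3 : 0 < ℓ ^ 3 := by positivity
    obtain ⟨K1, hK1⟩ := H1 ℓ (by linarith)
    refine ⟨K1, fun K hK hKn => ?_⟩
    filter_upwards [hK1 K hK hKn, H2 ℓ (by linarith) K hKn] with R hR1 hR2 c
    obtain ⟨q, hq⟩ : ∃ q, q = 1 / (2 * m) * (2 * Real.pi / ℓ) ^ 2 := ⟨_, rfl⟩
    have hq0 : 0 < q := by rw [hq]; positivity
    rw [← hq] at hR1 hR2 ⊢
    set WK : T3 → ℝ := fun y => min (Wr v ℓ y) K with hWK
    have hWKp : Pot WK := pot_min (Wr_pot hv.meas hv.int hv.even hℓ0) hKn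
    obtain ⟨c', hc'⟩ := exists_scat hWKp hq0 hμ (boxM_sym R)
    have h1 := scat_min hWKp hq0 hμ hc' c
    have h2 := hR1 c'
    have h3 := Qf_gap WK q μ (s ^ 2 * μ) ((boxM R).erase 0) c'
    set om := ∑ n ∈ (boxM R).erase 0, c' n ^ 2 with homd
    have hom0 : 0 ≤ om := Finset.sum_nonneg fun n _ => sq_nonneg _
    have hsj : s ^ j ≤ 1 := pow_le_one₀ hs0.le hs1.le
    have hsq : √(s ^ 2 * μ) = s * √μ := by
      rw [Real.sqrt_mul (by positivity), Real.sqrt_sq hs0.le]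
    have hsμ := Real.sqrt_pos.2 hμ
    have hμs : μ = √μ * √μ := (Real.mul_self_sqrt hμ.le).symm
    -- the coefficient at zero
    have h4 : (G - η0) / ℓ ^ 3 ≤ gh WK ((boxM R).erase 0) c' 0 := by
      rw [scat_Q hWKp hc', div_le_iff₀ hℓ3, h3]
      have h5 : 0 ≤ A * ((1 + s) * (1 - s ^ j)) * √(s ^ 2 * μ) := by
        have : 0 ≤ 1 - s ^ j := by linarith
        positivity
      have h6 : 0 ≤ ℓ ^ 3 * (2 * (μ - s ^ 2 * μ) * om) := by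
        have : 0 ≤ μ - s ^ 2 * μ := by linarith
        positivity
      nlinarith
    by_cases hbig : gh WK ((boxM R).erase 0) c' 0 ≤ 2 * G₀ / ℓ ^ 3
    swap
    · have h5 : 2 * G₀ < ℓ ^ 3 * Qf WK q μ ((boxM R).erase 0) c' := by
        rw [not_le, scat_Q hWKp hc', div_lt_iff₀ hℓ3] at hbig
        linarith
      have h6 : √μ ≤ P0 (1 / (2 * m)) / (G₀ * Real.pi ^ 2) := by
        calc √μ ≤ √((P0 (1 / (2 * m)) / (G₀ * Real.pi ^ 2)) ^ 2) := by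
              rw [← hδ2]
              exact Real.sqrt_le_sqrt (hμδ.trans (min_le_right _ _))
          _ = _ := Real.sqrt_sq (by positivity)
      have hsj1 : s ^ (j + 1) ≤ 1 := pow_le_one₀ hs0.le hs1.le
      have hsj0 : 0 ≤ s ^ (j + 1) := by positivity
      have h7 : (1 + s) * (1 - s ^ (j + 1)) ≤ 2 := by
        calc (1 + s) * (1 - s ^ (j + 1)) ≤ 2 * 1 := by
              refine mul_le_mul (by linarith) (by linarith) (by linarith) (by norm_num)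
          _ = 2 := by norm_num
      have h8 : A * ((1 + s) * (1 - s ^ (j + 1))) * √μ ≤ G₀ := by
        calc A * ((1 + s) * (1 - s ^ (j + 1))) * √μ
            ≤ G₀ ^ 2 * Real.pi ^ 2 / (2 * P0 (1 / (2 * m))) * 2 *
                (P0 (1 / (2 * m)) / (G₀ * Real.pi ^ 2)) := by
              refine mul_le_mul (mul_le_mul hAle h7 (mul_nonneg (by linarith) (by linarith))
                (by positivity)) h6 hsμ.le (by positivity)
          _ = G₀ := by field_simp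
      have h9 := mul_le_mul_of_nonneg_left h1 hℓ3.le
      linarith
    have h5 := hR2 c' hc' h4 hbig
    have h6 : A / (2 * √μ) ≤ ℓ ^ 3 * om := by
      refine le_trans (le_of_eq ?_) h5
      rw [hA]; field_simp; ring
    have h7 : A * (1 - s ^ 2) * √μ ≤ ℓ ^ 3 * (2 * (μ - s ^ 2 * μ) * om) := by
      have h8 : 0 ≤ 2 * (μ - s ^ 2 * μ) := by linarith
      calc A * (1 - s ^ 2) * √μ = 2 * (μ - s ^ 2 * μ) * (A / (2 * √μ)) := by
            have e : μ - s ^ 2 * μ = (1 - s ^ 2) * (√μ * √μ) := by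
              rw [← hμs]; ring
            rw [e]; field_simp
        _ ≤ 2 * (μ - s ^ 2 * μ) * (ℓ ^ 3 * om) := mul_le_mul_of_nonneg_left h6 h8
        _ = _ := by ring
    have h8 := mul_le_mul_of_nonneg_left h1 hℓ3.le
    rw [h3, mul_add] at h8
    rw [hsq] at h2
    have h9 : A * ((1 + s) * (1 - s ^ (j + 1))) * √μ =
        A * ((1 + s) * (1 - s ^ j)) * (s * √μ) + A * (1 - s ^ 2) * √μ := by
      rw [pow_succ]; ring
    rw [h9]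
    linarith

/-- uniform lower bound of second order -/
theorem gmu_of (hLAT : S_LAT) (hSL : S_SL) (hNB : S_NB) : S_GMU := by
  intro m hm V _ R₀ hf G₀ hG₀ ε hε
  have hPb := P0_pos (show 0 < 1 / (2 * m) by positivity)
  have hPi := Real.pi_pos
  obtain ⟨X₀, hX₀⟩ : ∃ X, X = G₀ ^ 2 * Real.pi ^ 2 / (2 * P0 (1 / (2 * m))) := ⟨_, rfl⟩
  have hX₀0 : 0 < X₀ := by rw [hX₀]; positivity
  obtain ⟨ζ, hζ0, hζ1, s, hs0, hs1, j, hj⟩ := choice hX₀0 (show 0 < ε / 2 by positivity)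
  obtain ⟨δ, η0, hδ, hη0, H⟩ := teleU hLAT hSL hNB hm hf hG₀ hζ0 hζ1
  refine ⟨δ, hδ, fun w hw hGl hGu μ hμ hμδ => ?_⟩
  have hG : 0 < scatG m w := by linarith
  obtain ⟨X, hX⟩ : ∃ X, X = scatG m w ^ 2 * Real.pi ^ 2 / (2 * P0 (1 / (2 * m))) := ⟨_, rfl⟩
  have hX0 : 0 < X := by rw [hX]; positivity
  have hXX : X ≤ X₀ := by rw [hX, hX₀]; gcongr
  have hj' : 2 * X - ε / 2 ≤ (1 - ζ) ^ 3 * X * ((1 + s) * (1 - s ^ j)) := by
    -- `2 X - X y ≤ ε / 2` for `X ≤ X₀`, where `y ≤ 2`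
    have h1 : (1 - ζ) ^ 3 * ((1 + s) * (1 - s ^ j)) ≤ 2 := by
      have hsj1 : s ^ j ≤ 1 := pow_le_one₀ hs0.le hs1.le
      have hsj0 : 0 ≤ s ^ j := by positivity
      calc (1 - ζ) ^ 3 * ((1 + s) * (1 - s ^ j)) ≤ 1 * (2 * 1) := by
            refine mul_le_mul (pow_le_one₀ (by linarith) (by linarith))
              (mul_le_mul (by linarith) (by linarith) (by linarith) (by norm_num))
              (mul_nonneg (by linarith) (by linarith)) (by norm_num)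
        _ = 2 := by norm_num
    have h2 : 0 ≤ (X₀ - X) * (2 - (1 - ζ) ^ 3 * ((1 + s) * (1 - s ^ j))) :=
      mul_nonneg (by linarith) (by linarith)
    nlinarith
  have hsμ := Real.sqrt_pos.2 hμ
  obtain ⟨L, hL, H2⟩ := H w hw hGl hGu s hs0 hs1 j μ hμ hμδ (min η0 (ε / 2 * √μ)) (by positivity)
    (min_le_left _ _)
  refine ⟨L, hL, fun ℓ hℓ => ?_⟩
  obtain ⟨K1, hK1⟩ := H2 ℓ hℓ
  refine ⟨K1, fun K hK hKn => ?_⟩
  filter_upwards [hK1 K hK hKn] with R hR c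
  have h1 := hR c
  rw [← hX] at h1
  have h2 : min η0 (ε / 2 * √μ) ≤ ε / 2 * √μ := min_le_right _ _
  have h3 := mul_le_mul_of_nonneg_right hj' hsμ.le
  have h4 : scatG m w ^ 2 * Real.pi ^ 2 / P0 (1 / (2 * m)) = 2 * X := by
    rw [hX]; field_simp
  rw [h4]
  have h5 : (2 * X - ε) * √μ = (2 * X - ε / 2) * √μ - ε / 2 * √μ := by ring
  linarith

end

end Pool.Agent.H751R2.LHY.G80.GMU3

namespace Pool.Agent.J6H3.BG

/-- **GMU** -/
theorem t_GMU (hNB : Pool.Agent.J6H80.BG.S_NB) : Pool.Agent.J6H80.BG.S_GMU :=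
  Pool.Agent.H751R2.LHY.G80.GMU3.gmu_of Pool.Agent.J6H48.BG.lat Pool.Agent.J6H76.BG.t_SL hNB

end Pool.Agent.J6H3.BG
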